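import Pool.Agent.ACK.StmtsD

/-! ACK, row WPR: the pattern words are prime. -/

namespace Pool.Agent.ACK.H10

open Pool.Agent.ACK.D

theorem conn1 : ∀ i j : Fin 6, ∃ k m : Fin 6,
    pat1.Q i k = true ∧ pat1.Q k m = true ∧ pat1.Q m j = true := by
  decide

theorem conn2 : ∀ i j : Fin 6, ∃ k m : Fin 6,
    pat2.Q i k = true ∧ pat2.Q k m = true ∧ pat2.Q m j = true := by
  decide

theorem wpr (hilb : IlbStmt) (hwcl : WclStmt) (hwil : WilStmt) : WprStmt := by
  intro P hP a ha k a' b' hrot hane hbne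
  by_contra hcon
  push Not at hcon
  obtain ⟨hsym, _, hR, _, hI⟩ := hilb
  obtain ⟨_, _, _, hmem, _⟩ := hwcl P hP a
  have hin : ∀ x, x ∈ Wd P a ↔ x ∈ a' ∨ x ∈ b' := by
    intro x
    rw [← List.mem_append, ← hrot, List.mem_rotate]
  have key : ∀ x ∈ a', ∀ z, z ∈ Wd P a → P.Q (cx x) (cx z) = true → z ∈ a' := by
    intro x hx z hz hQ
    by_contra hza
    have hzb : z ∈ b' := by
      rcases (hin z).1 hz with h | h
      · exact absurd h hza
      · exact h
    have hxz : x ≠ z := by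
      intro h
      exact hza (h ▸ hx)
    have hxl : x ∈ Wd P a := (hin x).2 (Or.inl hx)
    have h1 : ¬ Il (a' ++ b') x z := hI a' b' x z (hcon x hx) hza
    rw [← hrot, hR] at h1
    exact h1 ((hwil P hP a x z ((hmem x).1 hxl) ((hmem z).1 hz) hxz).2 hQ)
  have rep : ∀ j : Fin 6, cx j.val = j := by
    intro j
    ext
    show j.val % 6 = j.val
    exact Nat.mod_eq_of_lt j.2
  have repm : ∀ j : Fin 6, j.val ∈ Wd P a := by
    intro j
    rw [hmem, rep]
    have h1 : j.val / 6 = 0 := Nat.div_eq_of_lt j.2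
    rw [h1]
    exact ha j
  have conn : ∀ i j : Fin 6, ∃ k m : Fin 6,
      P.Q i k = true ∧ P.Q k m = true ∧ P.Q m j = true := by
    rcases hP with h | h
    · rw [h]; exact conn1
    · rw [h]; exact conn2
  obtain ⟨x, hx⟩ := List.exists_mem_of_ne_nil a' hane
  obtain ⟨z, hz⟩ := List.exists_mem_of_ne_nil b' hbne
  have hzl : z ∈ Wd P a := (hin z).2 (Or.inr hz)
  obtain ⟨k1, m1, h1, h2, h3⟩ := conn (cx x) (cx z)
  have s1 : k1.val ∈ a' := key x hx k1.val (repm k1) (by rw [rep]; exact h1)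
  have s2 : m1.val ∈ a' := key k1.val s1 m1.val (repm m1) (by rw [rep, rep]; exact h2)
  have s3 : z ∈ a' := key m1.val s2 z hzl (by rw [rep]; exact h3)
  exact hcon z s3 hz

end Pool.Agent.ACK.H10
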